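import Pool.Agent.Helper34.OP.Core

/-!
# One-pass polychromatic colourings: the counting argument
-/

namespace Pool.Agent.Helper34.OP

open Finset

variable {X : Type*}

open Classical in
/-- Double counting. -/
theorem dc {N : ℕ} (A : Finset X) (I : Finset (Fin N)) (Y : Fin N → Finset X) :
    ∑ i ∈ I, (A.filter (fun q => q ∈ Y i)).card = ∑ q ∈ A, (I.filter (fun i => q ∈ Y i)).card := by
  simp only [card_filter]
  exact sum_comm

open Classical in
/-- The counting argument. -/
theorem static {F : Set (Set X)} {f : ℕ → ℕ} (hF : SelfCov F f) (hf : Monotone f) {k N u : ℕ}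
    (hu : 1 ≤ u) (hk : 1 ≤ k) (hN : N = 8 * k * u * (f (8 * u * f 1) + 1)) (Z : Finset X)
    (Zs : Fin k → Fin N → Finset X) (h : X → Option (Fin k)) (hZ : ∀ a i, Zs a i ⊆ Z)
    (h3 : ∀ q ∈ Z, ∀ a, h q = some a → N ≤ 2 * (univ.filter (fun i => q ∈ Zs a i)).card)
    (h4 : ∀ q ∈ Z, ∀ a, h q ≠ some a → (univ.filter (fun i => q ∈ Zs a i)).card ≤ 2 * u)
    (h5 : ∀ q ∈ Z, ∀ a, h q = none → (univ.filter (fun i => q ∈ Zs a i)).card = 2 * u)
    (hH : ∀ S ∈ F, ∀ a i, u + 1 ≤ cnt (Zs a i) S → (∃ q ∈ Zs a i, q ∈ S ∧ h q = some a) ∧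
      ∃ q ∈ Zs a i, q ∈ S ∧ h q ≠ some a) :
    ∀ S ∈ F, N ≤ cnt Z S → ∀ a, ∃ q ∈ Z, q ∈ S ∧ h q = some a := by
  intro S₀ hS₀ hS₀N a
  by_contra hcon
  push Not at hcon
  have hk8 : 8 ≤ 8 * k * u * (f (8 * u * f 1) + 1) := by
    have h1 : 1 ≤ k * u * (f (8 * u * f 1) + 1) :=
      Nat.mul_pos (Nat.mul_pos hk hu) (Nat.succ_pos _)
    calc 8 = 8 * 1 := rfl
      _ ≤ 8 * (k * u * (f (8 * u * f 1) + 1)) := Nat.mul_le_mul_left _ h1
      _ = _ := by ring
  have hN8 : 8 ≤ N := hN ▸ hk8
  obtain ⟨S, hS, hSS, hs1, hs2⟩ := shrink hF Z N (by omega) _ S₀ hS₀ rfl hS₀N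
  -- the points of `Z` in `S`
  set A : Finset X := Z.filter (fun p => p ∈ S) with hA
  have hAcard : cnt Z S = A.card := rfl
  rw [hAcard] at hs1 hs2
  have hAZ : ∀ q ∈ A, q ∈ Z ∧ q ∈ S := fun q hq => mem_filter.1 hq
  have hf1 : 1 ≤ f 1 := by
    by_contra h0
    have h1 : f 1 = 0 := by omega
    rw [h1, zero_mul] at hs2
    omega
  have hna : ∀ q ∈ A, h q ≠ some a := fun q hq => hcon q (hAZ q hq).1 (hSS (hAZ q hq).2)
  have hcnt : ∀ b i, cnt (Zs b i) S = (A.filter (fun q => q ∈ Zs b i)).card := by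
    intro b i
    unfold cnt
    congr 1
    ext q
    simp only [mem_filter, hA]
    constructor
    · rintro ⟨h1, h2⟩
      exact ⟨⟨hZ b i h1, h2⟩, h1⟩
    · rintro ⟨⟨_, h2⟩, h1⟩
      exact ⟨h1, h2⟩
  -- the uncoloured points
  have hU : 2 * (A.filter (fun q => h q = none)).card ≤ N := by
    have h1 : ∀ i : Fin N, (A.filter (fun q => q ∈ Zs a i)).card ≤ u := by
      intro i
      by_contra h2
      obtain ⟨⟨q, hq1, hq2, hq3⟩, _⟩ := hH S hS a i (by rw [hcnt]; omega)
      exact hna q (mem_filter.2 ⟨hZ a i hq1, hq2⟩) hq3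
    have h2 : ∑ i : Fin N, (A.filter (fun q => q ∈ Zs a i)).card ≤ N * u := by
      calc _ ≤ ∑ _i : Fin N, u := sum_le_sum fun i _ => h1 i
        _ = N * u := by rw [sum_const, smul_eq_mul, card_univ, Fintype.card_fin]
    rw [dc A univ (Zs a)] at h2
    have h6 : (A.filter (fun q => h q = none)).card * (2 * u) ≤
        ∑ q ∈ A, (univ.filter (fun i => q ∈ Zs a i)).card := by
      calc (A.filter (fun q => h q = none)).card * (2 * u)
          = ∑ q ∈ A.filter (fun q => h q = none), 2 * u := by rw [sum_const, smul_eq_mul]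
        _ = ∑ q ∈ A.filter (fun q => h q = none), (univ.filter (fun i => q ∈ Zs a i)).card :=
            sum_congr rfl fun q hq => (h5 q (hAZ q (mem_filter.1 hq).1).1 a (mem_filter.1 hq).2).symm
        _ ≤ _ := sum_le_sum_of_subset (filter_subset _ _)
    have h7 : (2 * (A.filter (fun q => h q = none)).card) * u ≤ N * u := by
      calc _ = (A.filter (fun q => h q = none)).card * (2 * u) := by ring
        _ ≤ _ := h6.trans h2
    exact Nat.le_of_mul_le_mul_right h7 hu
  -- the points of colour `b`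
  have hb : ∀ b : Fin k, (A.filter (fun q => h q = some b)).card ≤ 4 * (f (8 * u * f 1) * u) := by
    intro b
    set J : ℕ := 8 * u * f 1 with hJ
    -- the false points
    set Fp : Fin N → Finset X := fun i => A.filter (fun q => q ∈ Zs b i ∧ h q ≠ some b) with hFp
    set G : Finset (Fin N) := univ.filter (fun i => (Fp i).card ≤ J) with hG
    have hsum : ∑ i : Fin N, (Fp i).card ≤ (2 * u) * A.card := by
      have h1 : ∀ i : Fin N, (Fp i).card =
          ((A.filter (fun q => h q ≠ some b)).filter (fun q => q ∈ Zs b i)).card := by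
        intro i
        congr 1
        ext q
        simp only [hFp, mem_filter]
        tauto
      calc ∑ i : Fin N, (Fp i).card
          = ∑ i : Fin N, ((A.filter (fun q => h q ≠ some b)).filter (fun q => q ∈ Zs b i)).card :=
            sum_congr rfl fun i _ => h1 i
        _ = ∑ q ∈ A.filter (fun q => h q ≠ some b), (univ.filter (fun i => q ∈ Zs b i)).card :=
            dc _ univ (Zs b)
        _ ≤ ∑ q ∈ A.filter (fun q => h q ≠ some b), 2 * u :=
            sum_le_sum fun q hq => h4 q (hAZ q (mem_filter.1 hq).1).1 b (mem_filter.1 hq).2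
        _ = (A.filter (fun q => h q ≠ some b)).card * (2 * u) := by rw [sum_const, smul_eq_mul]
        _ ≤ A.card * (2 * u) := Nat.mul_le_mul_right _ (card_filter_le _ _)
        _ = (2 * u) * A.card := by ring
    have hGc : 4 * (univ.filter (fun i => ¬ (Fp i).card ≤ J)).card ≤ N := by
      have h1 : (univ.filter (fun i => ¬ (Fp i).card ≤ J)).card * J ≤ ∑ i : Fin N, (Fp i).card := by
        calc _ = ∑ i ∈ univ.filter (fun i => ¬ (Fp i).card ≤ J), J := by
              rw [sum_const, smul_eq_mul]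
          _ ≤ ∑ i ∈ univ.filter (fun i => ¬ (Fp i).card ≤ J), (Fp i).card :=
              sum_le_sum fun i hi => by
                have := (mem_filter.1 hi).2
                omega
          _ ≤ _ := sum_le_sum_of_subset (filter_subset _ _)
      have h2 : (univ.filter (fun i => ¬ (Fp i).card ≤ J)).card * J ≤ 2 * u * (f 1 * N) :=
        h1.trans (hsum.trans (Nat.mul_le_mul_left _ hs2))
      have h6 : (4 * (univ.filter (fun i => ¬ (Fp i).card ≤ J)).card) * (2 * u * f 1)
          ≤ N * (2 * u * f 1) := by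
        calc _ = (univ.filter (fun i => ¬ (Fp i).card ≤ J)).card * J := by rw [hJ]; ring
          _ ≤ 2 * u * (f 1 * N) := h2
          _ = _ := by ring
      exact Nat.le_of_mul_le_mul_right h6 (Nat.mul_pos (Nat.mul_pos (by norm_num) hu) hf1)
    -- every point of colour `b` is in many good copies
    have hgood : ∀ q ∈ A.filter (fun q => h q = some b),
        N ≤ 4 * (G.filter (fun i => q ∈ Zs b i)).card := by
      intro q hq
      have hq1 := (hAZ q (mem_filter.1 hq).1).1
      have h1 := h3 q hq1 b (mem_filter.1 hq).2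
      have h2 : (univ.filter (fun i => q ∈ Zs b i)).card ≤ (G.filter (fun i => q ∈ Zs b i)).card +
          (univ.filter (fun i => ¬ (Fp i).card ≤ J)).card := by
        refine (card_le_card ?_).trans (card_union_le _ _)
        intro i hi
        by_cases hiJ : (Fp i).card ≤ J
        · exact mem_union_left _ (mem_filter.2 ⟨mem_filter.2 ⟨mem_univ _, hiJ⟩,
            (mem_filter.1 hi).2⟩)
        · exact mem_union_right _ (mem_filter.2 ⟨mem_univ _, hiJ⟩)
      omega
    -- a good copy has few points of colour `b`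
    have hfew : ∀ i ∈ G, ((A.filter (fun q => h q = some b)).filter (fun q => q ∈ Zs b i)).card ≤
        f J * u := by
      intro i hi
      have hiJ := (mem_filter.1 hi).2
      obtain ⟨D, hD1, hD2, hD3⟩ := hF S hS (Fp i)
        ((A.filter (fun q => h q = some b)).filter (fun q => q ∈ Zs b i))
        (fun x hx => (hAZ x (mem_filter.1 hx).1).2)
        (fun x hx => ⟨(hAZ x (mem_filter.1 (mem_filter.1 hx).1).1).2, fun h1 =>
          (mem_filter.1 h1).2.2 (mem_filter.1 (mem_filter.1 hx).1).2⟩)
      refine card_le_of_cover (Z := Zs b i) (hD1.trans (hf hiJ))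
        (fun x hx => ⟨(mem_filter.1 hx).2, hD3 x hx⟩) (fun B hB => ?_)
      by_contra hcB
      obtain ⟨hBF, hBS, hBx⟩ := hD2 B hB
      obtain ⟨_, q, hq1, hq2, hq3⟩ := hH B hBF b i (by omega)
      exact hBx q (mem_filter.2 ⟨mem_filter.2 ⟨hZ b i hq1, hBS hq2⟩, hq1, hq3⟩) hq2
    have h1 : (A.filter (fun q => h q = some b)).card * N ≤ 4 * (N * (f J * u)) := by
      calc (A.filter (fun q => h q = some b)).card * N
          = ∑ q ∈ A.filter (fun q => h q = some b), N := by rw [sum_const, smul_eq_mul]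
        _ ≤ ∑ q ∈ A.filter (fun q => h q = some b), 4 * (G.filter (fun i => q ∈ Zs b i)).card :=
            sum_le_sum hgood
        _ = 4 * ∑ q ∈ A.filter (fun q => h q = some b), (G.filter (fun i => q ∈ Zs b i)).card := by
            rw [mul_sum]
        _ = 4 * ∑ i ∈ G, ((A.filter (fun q => h q = some b)).filter (fun q => q ∈ Zs b i)).card := by
            rw [dc _ G (Zs b)]
        _ ≤ 4 * ∑ _i ∈ G, f J * u := Nat.mul_le_mul_left _ (sum_le_sum hfew)
        _ = 4 * (G.card * (f J * u)) := by rw [sum_const, smul_eq_mul]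
        _ ≤ 4 * (N * (f J * u)) := by
            refine Nat.mul_le_mul_left _ (Nat.mul_le_mul_right _ ?_)
            calc G.card ≤ (univ : Finset (Fin N)).card := card_filter_le _ _
              _ = N := by rw [card_univ, Fintype.card_fin]
    have h2 : (A.filter (fun q => h q = some b)).card * N ≤ (4 * (f J * u)) * N := by
      calc _ ≤ 4 * (N * (f J * u)) := h1
        _ = _ := by ring
    exact Nat.le_of_mul_le_mul_right h2 (by omega)
  -- sum up
  have htot : A.card ≤ (A.filter (fun q => h q = none)).card +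
      ∑ b ∈ univ.erase a, (A.filter (fun q => h q = some b)).card := by
    have h1 : A ⊆ A.filter (fun q => h q = none) ∪
        (univ.erase a).biUnion (fun b => A.filter (fun q => h q = some b)) := by
      intro q hq
      rcases hhq : h q with _ | b
      · exact mem_union_left _ (mem_filter.2 ⟨hq, hhq⟩)
      · refine mem_union_right _ (mem_biUnion.2 ⟨b, mem_erase.2 ⟨?_, mem_univ _⟩,
          mem_filter.2 ⟨hq, hhq⟩⟩)
        rintro rfl
        exact hna q hq hhq
    calc A.card ≤ _ := card_le_card h1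
      _ ≤ _ := card_union_le _ _
      _ ≤ _ := Nat.add_le_add_left card_biUnion_le _
  have hsum2 : ∑ b ∈ univ.erase a, (A.filter (fun q => h q = some b)).card ≤
      (k - 1) * (4 * (f (8 * u * f 1) * u)) := by
    calc _ ≤ ∑ _b ∈ univ.erase a, 4 * (f (8 * u * f 1) * u) := sum_le_sum fun b _ => hb b
      _ = _ := by
        rw [sum_const, smul_eq_mul, card_erase_of_mem (mem_univ _), card_univ, Fintype.card_fin]
  obtain ⟨k', rfl⟩ : ∃ k', k = k' + 1 := ⟨k - 1, by omega⟩
  rw [Nat.add_sub_cancel] at hsum2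
  have hfinal : N ≤ 8 * k' * u * f (8 * u * f 1) := by
    have h1 : 8 * k' * u * f (8 * u * f 1) = 2 * (k' * (4 * (f (8 * u * f 1) * u))) := by ring
    rw [h1]
    omega
  have h1 : 8 * k' * u * f (8 * u * f 1) < N := by
    rw [hN]
    calc 8 * k' * u * f (8 * u * f 1) ≤ 8 * (k' + 1) * u * f (8 * u * f 1) := by
          refine Nat.mul_le_mul_right _ (Nat.mul_le_mul_right _ (Nat.mul_le_mul_left _ ?_))
          omega
      _ < 8 * (k' + 1) * u * (f (8 * u * f 1) + 1) := by
          refine Nat.mul_lt_mul_of_pos_left (Nat.lt_succ_self _) ?_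
          exact Nat.mul_pos (Nat.mul_pos (by norm_num) (Nat.succ_pos _)) hu
  omega

end Pool.Agent.Helper34.OP
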