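import Mathlib

/-!
# One-pass polychromatic colourings of self-coverable families: the core argument

A rule `φ` colours the points of a finite set `Z`, taken in the order of increasing rank `r`, the
colour of `p` being `φ (below r Z p) p`, where `below r Z p` is the set of the earlier points of `Z`.
-/

namespace Pool.Agent.Helper34.OP

open Finset

variable {X : Type*}

/-- The points of `Z` of smaller rank than `p`. -/
noncomputable def below (r : X → ℕ) (Z : Finset X) (p : X) : Finset X :=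
  Z.filter (fun q => r q < r p)

/-- Trace form of self-coverability with function `f`. -/
def SelfCov (F : Set (Set X)) (f : ℕ → ℕ) : Prop :=
  ∀ S ∈ F, ∀ Q R : Finset X, (∀ x ∈ Q, x ∈ S) → (∀ x ∈ R, x ∈ S ∧ x ∉ Q) →
    ∃ C : Finset (Set X), C.card ≤ f Q.card ∧ (∀ A ∈ C, A ∈ F ∧ A ⊆ S ∧ ∀ x ∈ Q, x ∉ A) ∧
      ∀ x ∈ R, ∃ A ∈ C, x ∈ A

section Static

open Classical in
/-- Number of points of `Z` in `S`. -/
noncomputable def cnt (Z : Finset X) (S : Set X) : ℕ := (Z.filter (fun p => p ∈ S)).card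

open Classical in
theorem cnt_mono {Z : Finset X} {A S : Set X} (h : A ⊆ S) : cnt Z A ≤ cnt Z S :=
  card_le_card (fun _ hp => by
    rw [mem_filter] at hp ⊢
    exact ⟨hp.1, h hp.2⟩)

open Classical in
/-- A finite set covered by at most `n` sets, each with at most `c` points. -/
theorem card_le_of_cover {Z R : Finset X} {C : Finset (Set X)} {c n : ℕ} (hC : C.card ≤ n)
    (hR : ∀ x ∈ R, x ∈ Z ∧ ∃ A ∈ C, x ∈ A) (hA : ∀ A ∈ C, cnt Z A ≤ c) : R.card ≤ n * c := by
  have h1 : R ⊆ C.biUnion (fun A => Z.filter (fun p => p ∈ A)) := by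
    intro x hx
    obtain ⟨hxZ, A, hAC, hxA⟩ := hR x hx
    exact mem_biUnion.2 ⟨A, hAC, mem_filter.2 ⟨hxZ, hxA⟩⟩
  calc R.card ≤ _ := card_le_card h1
    _ ≤ ∑ A ∈ C, (Z.filter (fun p => p ∈ A)).card := card_biUnion_le
    _ ≤ ∑ _A ∈ C, c := sum_le_sum (fun A hAC => hA A hAC)
    _ = C.card * c := by rw [sum_const, smul_eq_mul]
    _ ≤ n * c := Nat.mul_le_mul_right _ hC

open Classical in
/-- Every member with at least `t` points contains a member with between `t` and `f 1 * t`
points. -/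
theorem shrink {F : Set (Set X)} {f : ℕ → ℕ} (hF : SelfCov F f) (Z : Finset X) (t : ℕ)
    (ht : 2 ≤ t) : ∀ n : ℕ, ∀ S ∈ F, cnt Z S = n → t ≤ n →
      ∃ T ∈ F, T ⊆ S ∧ t ≤ cnt Z T ∧ cnt Z T ≤ f 1 * t := by
  intro n
  induction n using Nat.strong_induction_on with
  | _ n ih =>
    intro S hS hn htn
    by_cases hsm : n ≤ f 1 * t
    · exact ⟨S, hS, subset_rfl, hn ▸ htn, hn ▸ hsm⟩
    have hne : (Z.filter (fun p => p ∈ S)).Nonempty := by
      rw [← card_pos]
      have : cnt Z S = (Z.filter (fun p => p ∈ S)).card := rfl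
      omega
    obtain ⟨x, hx⟩ := hne
    have hxS := (mem_filter.1 hx).2
    have hxZ := (mem_filter.1 hx).1
    obtain ⟨C, hC1, hC2, hC3⟩ := hF S hS {x} ((Z.filter (fun p => p ∈ S)).erase x)
      (fun y hy => by rw [mem_singleton.1 hy]; exact hxS)
      (fun y hy => ⟨(mem_filter.1 (mem_of_mem_erase hy)).2, fun h =>
        (ne_of_mem_erase hy) (mem_singleton.1 h)⟩)
    rw [card_singleton] at hC1
    by_cases hbig : ∃ A ∈ C, t ≤ cnt Z A
    · obtain ⟨A, hAC, hA⟩ := hbig
      obtain ⟨hAF, hAS, hAx⟩ := hC2 A hAC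
      have hlt : cnt Z A < n := by
        rw [← hn]
        refine card_lt_card ?_
        rw [ssubset_iff_of_subset]
        · exact ⟨x, hx, fun h => hAx x (mem_singleton_self x) (mem_filter.1 h).2⟩
        · intro y hy
          exact mem_filter.2 ⟨(mem_filter.1 hy).1, hAS (mem_filter.1 hy).2⟩
      obtain ⟨T, hT1, hT2, hT3, hT4⟩ := ih _ hlt A hAF rfl hA
      exact ⟨T, hT1, hT2.trans hAS, hT3, hT4⟩
    · exfalso
      push Not at hbig
      have h1 : ((Z.filter (fun p => p ∈ S)).erase x).card ≤ f 1 * (t - 1) :=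
        card_le_of_cover (Z := Z) hC1
          (fun y hy => ⟨(mem_filter.1 (mem_of_mem_erase hy)).1, hC3 y hy⟩)
          (fun A hA => by have := hbig A hA; omega)
      rw [card_erase_of_mem hx] at h1
      have h2 : cnt Z S = (Z.filter (fun p => p ∈ S)).card := rfl
      have h3 : n ≤ f 1 * (t - 1) + 1 := by omega
      rcases Nat.eq_zero_or_pos (f 1) with h0 | h0
      · rw [h0] at h3
        omega
      · have h4 : f 1 * t = f 1 * (t - 1) + f 1 := by
          obtain ⟨s, rfl⟩ : ∃ s, t = s + 1 := ⟨t - 1, by omega⟩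
          simp [Nat.mul_add]
        omega

end Static

end Pool.Agent.Helper34.OP
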