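import Pool.Agent.Helper34.OP.Cnt

/-!
# One-pass polychromatic colourings: the voting process
-/

namespace Pool.Agent.Helper34.OP

open Finset

variable {X : Type*} {k N : ℕ}

/-- For every colour and every copy the set of registered points. -/
def St (X : Type*) (k N : ℕ) : Type _ := Fin k → Fin N → Finset X

section step

variable (φ : Finset X → X → Prop) (w : ℕ)

open Classical in
/-- The copies of group `a` which vote for `p`. -/
noncomputable def vt (s : St X k N) (p : X) (a : Fin k) : Finset (Fin N) :=
  univ.filter (fun i => φ (s a i) p)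

/-- At least half of the copies of group `a` vote for `p`. -/
def dem (s : St X k N) (p : X) (a : Fin k) : Prop := N ≤ 2 * (vt φ s p a).card

open Classical in
/-- The colour of `p`, if there is one. -/
noncomputable def col (s : St X k N) (p : X) : Option (Fin k) :=
  if h : ∃ a, dem φ s p a then some (Classical.choose h) else none

open Classical in
/-- The copies of group `a` in which `p` is registered. -/
noncomputable def reg (s : St X k N) (p : X) (a : Fin k) : Finset (Fin N) :=
  if col φ s p = some a then vt φ s p a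
  else if dem φ s p a then ∅
  else if h : ∃ u ⊆ univ \ vt φ s p a, u.card = w then Classical.choose h else ∅

open Classical in
/-- The next state. -/
noncomputable def step (s : St X k N) (p : X) : St X k N :=
  fun a i => if i ∈ reg φ w s p a then insert p (s a i) else s a i

variable {φ w}

theorem dem_of_col {s : St X k N} {p : X} {a : Fin k} (h : col φ s p = some a) :
    dem φ s p a := by
  unfold col at h
  by_cases h1 : ∃ a, dem φ s p a
  · rw [dif_pos h1] at h
    have h2 := Classical.choose_spec h1
    rw [Option.some.inj h] at h2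
    exact h2
  · rw [dif_neg h1] at h
    exact absurd h (by simp)

theorem not_dem_of_col {s : St X k N} {p : X} (h : col φ s p = none) (a : Fin k) :
    ¬ dem φ s p a := by
  intro h1
  unfold col at h
  rw [dif_pos ⟨a, h1⟩] at h
  exact absurd h (by simp)

theorem exists_reg (hw : 2 * w ≤ N) {s : St X k N} {p : X} {a : Fin k} (h : ¬ dem φ s p a) :
    ∃ u ⊆ univ \ vt φ s p a, u.card = w := by
  classical
  refine exists_subset_card_eq ?_
  rw [card_sdiff_of_subset (subset_univ _), card_univ, Fintype.card_fin]
  unfold dem at h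
  omega

theorem mem_reg {s : St X k N} {p : X} {a : Fin k} {i : Fin N} (hi : i ∈ reg φ w s p a) :
    φ (s a i) p ↔ col φ s p = some a := by
  classical
  unfold reg at hi
  by_cases h1 : col φ s p = some a
  · rw [if_pos h1] at hi
    exact ⟨fun _ => h1, fun _ => (mem_filter.1 hi).2⟩
  · rw [if_neg h1] at hi
    by_cases h2 : dem φ s p a
    · rw [if_pos h2] at hi
      exact absurd hi (notMem_empty _)
    · rw [if_neg h2] at hi
      by_cases h3 : ∃ u ⊆ univ \ vt φ s p a, u.card = w
      · rw [dif_pos h3] at hi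
        have h4 := (Classical.choose_spec h3).1 hi
        refine ⟨fun h5 => absurd (show i ∈ vt φ s p a from mem_filter.2 ⟨mem_univ i, h5⟩)
          (mem_sdiff.1 h4).2, fun h5 => absurd h5 h1⟩
      · rw [dif_neg h3] at hi
        exact absurd hi (notMem_empty _)

theorem card_reg_some {s : St X k N} {p : X} {a : Fin k} (h : col φ s p = some a) :
    N ≤ 2 * (reg φ w s p a).card := by
  classical
  unfold reg
  rw [if_pos h]
  exact dem_of_col h

theorem card_reg_ne {s : St X k N} {p : X} {a : Fin k} (h : col φ s p ≠ some a) :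
    (reg φ w s p a).card ≤ w := by
  classical
  unfold reg
  rw [if_neg h]
  by_cases h2 : dem φ s p a
  · rw [if_pos h2, card_empty]
    exact Nat.zero_le _
  · rw [if_neg h2]
    by_cases h3 : ∃ u ⊆ univ \ vt φ s p a, u.card = w
    · rw [dif_pos h3]
      exact (Classical.choose_spec h3).2.le
    · rw [dif_neg h3, card_empty]
      exact Nat.zero_le _

theorem card_reg_none (hw : 2 * w ≤ N) {s : St X k N} {p : X} {a : Fin k}
    (h : col φ s p = none) : (reg φ w s p a).card = w := by
  classical
  have h1 : col φ s p ≠ some a := by rw [h]; simp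
  have h2 := not_dem_of_col h a
  have h3 := exists_reg hw h2
  unfold reg
  rw [if_neg h1, if_neg h2, dif_pos h3]
  exact (Classical.choose_spec h3).2

end step

section seq

variable (φ : Finset X → X → Prop) (w : ℕ) (e : ℕ → X) (r : X → ℕ) (k N : ℕ)

open Classical in
/-- The states of the process. -/
noncomputable def sq (Z : Finset X) : ℕ → St X k N
  | 0 => fun _ _ => ∅
  | n + 1 => if e n ∈ Z ∧ r (e n) = n then step φ w (sq Z n) (e n) else sq Z n

variable {φ w e r k N}

theorem sq_congr {Y Z : Finset X} {n : ℕ} (h : ∀ q, r q < n → (q ∈ Y ↔ q ∈ Z)) :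
    sq φ w e r k N Y n = sq φ w e r k N Z n := by
  classical
  induction n with
  | zero => rfl
  | succ n ih =>
    have h1 := ih fun q hq => h q (by omega)
    have h2 : (e n ∈ Y ∧ r (e n) = n) ↔ (e n ∈ Z ∧ r (e n) = n) := by
      constructor
      · rintro ⟨h3, h4⟩
        exact ⟨(h _ (by omega)).1 h3, h4⟩
      · rintro ⟨h3, h4⟩
        exact ⟨(h _ (by omega)).2 h3, h4⟩
    unfold sq
    by_cases h3 : e n ∈ Z ∧ r (e n) = n
    · rw [if_pos h3, if_pos (h2.2 h3), h1]
    · rw [if_neg h3, if_neg (fun h4 => h3 (h2.1 h4)), h1]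

theorem below_insert {Y : Finset X} [DecidableEq X] {p q : X} (h : ¬ r p < r q) :
    below r (insert p Y) q = below r Y q := by
  classical
  unfold below
  ext x
  simp only [mem_filter, mem_insert]
  constructor
  · rintro ⟨rfl | h1, h2⟩
    · exact absurd h2 h
    · exact ⟨h1, h2⟩
  · rintro ⟨h1, h2⟩
    exact ⟨Or.inr h1, h2⟩

theorem below_all {Y : Finset X} {p : X} (h : ∀ q ∈ Y, r q < r p) : below r Y p = Y := by
  unfold below
  exact filter_true_of_mem h

/-- The invariants of the process. -/
theorem inv {Z : Finset X} (he : ∀ q ∈ Z, e (r q) = q) (n : ℕ) :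
    (∀ a i, ∀ q ∈ sq φ w e r k N Z n a i, q ∈ Z ∧ r q < n) ∧
    (∀ a i, ∀ q ∈ sq φ w e r k N Z n a i,
      (φ (below r (sq φ w e r k N Z n a i) q) q ↔
        col φ (sq φ w e r k N Z (r q)) q = some a)) ∧
    ∀ q ∈ Z, r q < n → ∀ a i, (q ∈ sq φ w e r k N Z n a i ↔
      i ∈ reg φ w (sq φ w e r k N Z (r q)) q a) := by
  classical
  induction n with
  | zero =>
    refine ⟨fun a i q hq => absurd hq (notMem_empty _), fun a i q hq => absurd hq (notMem_empty _),
      fun q _ hq => absurd hq (Nat.not_lt_zero _)⟩
  | succ n ih =>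
    obtain ⟨ih1, ih2, ih3⟩ := ih
    by_cases hc : e n ∈ Z ∧ r (e n) = n
    · obtain ⟨hc1, hc2⟩ := hc
      have hst : sq φ w e r k N Z (n + 1) = step φ w (sq φ w e r k N Z n) (e n) := by
        conv_lhs => unfold sq
        rw [if_pos ⟨hc1, hc2⟩]
      have hval : ∀ a i, sq φ w e r k N Z (n + 1) a i =
          if i ∈ reg φ w (sq φ w e r k N Z n) (e n) a then insert (e n) (sq φ w e r k N Z n a i)
          else sq φ w e r k N Z n a i := by
        intro a i
        rw [hst]
        rfl
      refine ⟨?_, ?_, ?_⟩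
      · intro a i q hq
        rw [hval] at hq
        by_cases hi : i ∈ reg φ w (sq φ w e r k N Z n) (e n) a
        · rw [if_pos hi, mem_insert] at hq
          rcases hq with rfl | hq
          · exact ⟨hc1, by omega⟩
          · have := ih1 a i q hq
            exact ⟨this.1, by omega⟩
        · rw [if_neg hi] at hq
          have := ih1 a i q hq
          exact ⟨this.1, by omega⟩
      · intro a i q hq
        rw [hval] at hq ⊢
        by_cases hi : i ∈ reg φ w (sq φ w e r k N Z n) (e n) a
        · rw [if_pos hi, mem_insert] at hq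
          rw [if_pos hi]
          rcases hq with hq | hq
          · rw [hq, below_insert (by omega), below_all (fun x hx => by
              have := (ih1 a i x hx).2
              omega), hc2]
            exact mem_reg hi
          · have h1 := (ih1 a i q hq).2
            rw [below_insert (by omega)]
            exact ih2 a i q hq
        · rw [if_neg hi] at hq
          rw [if_neg hi]
          exact ih2 a i q hq
      · intro q hq hqn a i
        rw [hval]
        by_cases hqe : q = e n
        · have h1 : q ∉ sq φ w e r k N Z n a i := fun h2 => by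
            have := (ih1 a i q h2).2
            rw [hqe, hc2] at this
            exact lt_irrefl _ this
          rw [hqe, hc2]
          rw [hqe] at h1
          by_cases hi : i ∈ reg φ w (sq φ w e r k N Z n) (e n) a
          · rw [if_pos hi]
            exact ⟨fun _ => hi, fun _ => mem_insert_self _ _⟩
          · rw [if_neg hi]
            exact ⟨fun h2 => absurd h2 h1, fun h2 => absurd h2 hi⟩
        · have h1 : r q < n := by
            rcases Nat.lt_or_ge (r q) n with h2 | h2
            · exact h2
            · exfalso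
              apply hqe
              have h3 : r q = n := by omega
              rw [← he q hq, h3]
          have h2 := ih3 q hq h1 a i
          by_cases hi : i ∈ reg φ w (sq φ w e r k N Z n) (e n) a
          · rw [if_pos hi, mem_insert]
            exact ⟨fun h3 => h2.1 (h3.resolve_left hqe), fun h3 => Or.inr (h2.2 h3)⟩
          · rw [if_neg hi]
            exact h2
    · have hst : sq φ w e r k N Z (n + 1) = sq φ w e r k N Z n := by
        conv_lhs => unfold sq
        rw [if_neg hc]
      rw [hst]
      refine ⟨fun a i q hq => ?_, ih2, fun q hq hqn a i => ?_⟩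
      · have := ih1 a i q hq
        exact ⟨this.1, by omega⟩
      · have h1 : r q < n := by
          rcases Nat.lt_or_ge (r q) n with h2 | h2
          · exact h2
          · exfalso
            apply hc
            have h3 : r q = n := by omega
            have h4 := he q hq
            rw [h3] at h4
            rw [h4]
            exact ⟨hq, h3⟩
        exact ih3 q hq h1 a i

end seq

/-- A one-pass rule with threshold `t` for the point set `P` in the order `r`. -/
def Rule (F : Set (Set X)) (k t : ℕ) (P : Finset X) (r : X → ℕ) (φ : Finset X → X → Fin k) : Prop :=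
  ∀ Z ⊆ P, ∀ S ∈ F, t ≤ cnt Z S → ∀ i, ∃ p ∈ Z, p ∈ S ∧ φ (below r Z p) p = i

/-- From two colours to `k` colours. -/
theorem main {F : Set (Set X)} {f : ℕ → ℕ} (hF : SelfCov F f) (hf : Monotone f) {u k : ℕ}
    (hu : 1 ≤ u) (hk : 1 ≤ k) {P : Finset X} {r : X → ℕ} (hr : Set.InjOn r P)
    {φ : Finset X → X → Fin 2} (hφ : Rule F 2 (u + 1) P r φ) :
    ∃ Φ : Finset X → X → Fin k, Rule F k (8 * k * u * (f (8 * u * f 1) + 1)) P r Φ := by
  classical
  set N : ℕ := 8 * k * u * (f (8 * u * f 1) + 1) with hN
  have hk0 : 0 < k := hk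
  have h1ku : 1 ≤ k * (f (8 * u * f 1) + 1) := Nat.mul_pos hk (Nat.succ_pos _)
  have hNw : 2 * (2 * u) ≤ N := by
    calc 2 * (2 * u) ≤ (8 * u) * 1 := by omega
      _ ≤ (8 * u) * (k * (f (8 * u * f 1) + 1)) := Nat.mul_le_mul_left _ h1ku
      _ = N := by rw [hN]; ring
  have hNpos : 1 ≤ N := by omega
  rcases P.eq_empty_or_nonempty with hP | ⟨x₀, hx₀⟩
  · refine ⟨fun _ _ => ⟨0, hk0⟩, ?_⟩
    intro Z hZ S _ hS
    rw [hP, subset_empty] at hZ
    subst hZ
    exfalso
    have : cnt (∅ : Finset X) S = 0 := by
      unfold cnt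
      rw [filter_empty, card_empty]
    omega
  have : Nonempty X := ⟨x₀⟩
  set e : ℕ → X := Function.invFunOn r (P : Set X) with he
  have heP : ∀ q ∈ P, e (r q) = q := fun q hq => hr.leftInvOn_invFunOn (mem_coe.2 hq)
  set ψ : Finset X → X → Prop := fun Y p => φ Y p = 1 with hψ
  refine ⟨fun Y p => (col ψ (sq ψ (2 * u) e r k N Y (r p)) p).getD ⟨0, hk0⟩, ?_⟩
  intro Z hZ S hS hSt a
  have heZ : ∀ q ∈ Z, e (r q) = q := fun q hq => heP q (hZ hq)
  obtain ⟨M, hM⟩ : ∃ M, ∀ q ∈ Z, r q < M :=
    ⟨Z.sup r + 1, fun q hq => Nat.lt_succ_of_le (le_sup (f := r) hq)⟩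
  obtain ⟨i1, i2, i3⟩ := inv (φ := ψ) (w := 2 * u) (k := k) (N := N) heZ M
  set Zs : Fin k → Fin N → Finset X := sq ψ (2 * u) e r k N Z M with hZs
  set h : X → Option (Fin k) := fun q => col ψ (sq ψ (2 * u) e r k N Z (r q)) q with hh
  have hreg : ∀ q ∈ Z, ∀ a, univ.filter (fun i => q ∈ Zs a i) =
      reg ψ (2 * u) (sq ψ (2 * u) e r k N Z (r q)) q a := by
    intro q hq a
    ext i
    rw [mem_filter]
    exact ⟨fun h1 => (i3 q hq (hM q hq) a i).1 h1.2,
      fun h1 => ⟨mem_univ _, (i3 q hq (hM q hq) a i).2 h1⟩⟩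
  have hZsZ : ∀ a i, Zs a i ⊆ Z := fun a i q hq => (i1 a i q hq).1
  have hfin2 : ∀ x : Fin 2, x ≠ 1 → x = 0 := by decide
  obtain ⟨q, hqZ, hqS, hqa⟩ := static hF hf hu hk hN Z Zs h hZsZ
    (fun q hq a ha => by
      rw [hreg q hq a]
      exact card_reg_some ha)
    (fun q hq a ha => by
      rw [hreg q hq a]
      exact card_reg_ne ha)
    (fun q hq a ha => by
      rw [hreg q hq a]
      exact card_reg_none hNw ha)
    (fun S hS a i hc => by
      have h1 := hφ (Zs a i) ((hZsZ a i).trans hZ) S hS hc
      obtain ⟨p1, hp1, hp1S, hp1φ⟩ := h1 1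
      obtain ⟨p0, hp0, hp0S, hp0φ⟩ := h1 0
      refine ⟨⟨p1, hp1, hp1S, (i2 a i p1 hp1).1 hp1φ⟩, ⟨p0, hp0, hp0S, fun h2 => ?_⟩⟩
      have h3 : φ (below r (Zs a i) p0) p0 = 1 := (i2 a i p0 hp0).2 h2
      rw [hp0φ] at h3
      exact absurd h3 (by decide)) S hS hSt a
  refine ⟨q, hqZ, hqS, ?_⟩
  have h1 : sq ψ (2 * u) e r k N (below r Z q) (r q) = sq ψ (2 * u) e r k N Z (r q) := by
    refine sq_congr fun x hx => ?_
    unfold below
    rw [mem_filter]
    exact ⟨fun h2 => h2.1, fun h2 => ⟨h2, hx⟩⟩
  show (col ψ (sq ψ (2 * u) e r k N (below r Z q) (r q)) q).getD ⟨0, hk0⟩ = a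
  rw [h1]
  have h2 : col ψ (sq ψ (2 * u) e r k N Z (r q)) q = some a := hqa
  rw [h2]
  rfl

end Pool.Agent.Helper34.OP
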